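import Mathlib
import Pool.Agent.L7h72.AM.Stm2
import Pool.Agent.L7h19.RH.All

/-!
# Project AM (helper72): all moments over all the integral points of a box (S_ALL)
-/

set_option autoImplicit false
set_option linter.unusedSectionVars false

namespace Pool.Agent.L7h60.AM

open Finset Pool.Agent.W262.RK Pool.Agent.W307.RT Pool.Agent.W571.RT Pool.Agent.L7h19.RH
open Pool.Agent.L7h72.AM2

variable {J : Type} [Fintype J] [DecidableEq J]

/-- the summand at the primitive points -/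
noncomputable def Q0k (k : ℕ) (cls : J → Fin 3) (a : Fin 3 → ℤ) (μ : J → ℕ) (α β : J → ℤ) (D : ℤ)
    (t : ℤ × ℤ) : ℝ := by
  classical
  exact if IsCoprime t.1 t.2 ∧ ∀ j, fv α β t.1 t.2 j ≠ 0 then RA k cls a μ α β D t else 0

lemma RA_nonneg (k : ℕ) (cls : J → Fin 3) (a : Fin 3 → ℤ) (μ : J → ℕ) (α β : J → ℤ) (D : ℤ)
    (t : ℤ × ℤ) : 0 ≤ RA k cls a μ α β D t := by
  unfold RA
  positivity

lemma Q0k_nonneg (k : ℕ) (cls : J → Fin 3) (a : Fin 3 → ℤ) (μ : J → ℕ) (α β : J → ℤ) (D : ℤ)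
    (t : ℤ × ℤ) : 0 ≤ Q0k k cls a μ α β D t := by
  unfold Q0k
  split_ifs
  · exact RA_nonneg _ _ _ _ _ _ _ _
  · exact le_rfl

lemma KK_real (k : ℕ) : ((KK k : ℕ) : ℝ) = 256 ^ k := by
  unfold KK
  push_cast
  rfl

/-- one point, uniformly in the twist -/
lemma Q0k_pt (k : ℕ) (cls : J → Fin 3) {a : Fin 3 → ℤ} (μ : J → ℕ) (α β : J → ℤ)
    (ha : ∀ k, a k ≠ 0)
    (hF : ∀ u v : ℤ, FM (c4 cls) a μ (fv α β u v) 0 - FM (c4 cls) a μ (fv α β u v) 1 =
      FM (c4 cls) a μ (fv α β u v) 2) (t : ℤ × ℤ) :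
    ∃ C : ℝ, 0 ≤ C ∧ ∀ D : ℤ, D ≠ 0 →
      Q0k k cls a μ α β D t ≤ C * (KK k : ℝ) ^ D.natAbs.primeFactors.card := by
  by_cases h : IsCoprime t.1 t.2 ∧ ∀ j, fv α β t.1 t.2 j ≠ 0
  · have hFne : ∀ k, FM (c4 cls) a μ (fv α β t.1 t.2) k ≠ 0 := fun k =>
      mul_ne_zero (ha k) (prod_ne_zero_iff.2 fun l _ => pow_ne_zero _ (h.2 l))
    obtain ⟨A, hA⟩ : ∃ A : ℤ, A = FM (c4 cls) a μ (fv α β t.1 t.2) 0 := ⟨_, rfl⟩
    obtain ⟨B, hB⟩ : ∃ B : ℤ, B = FM (c4 cls) a μ (fv α β t.1 t.2) 1 := ⟨_, rfl⟩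
    refine ⟨((4 : ℝ) ^ ((2 * A * B * (A - B)).natAbs.primeFactors.card + 2)) ^ k, by positivity,
      fun D hD => ?_⟩
    unfold Q0k
    rw [if_pos h]
    unfold RA
    have h1 := crude (A := A) (B := B) (D := D) (hA ▸ hFne 0) (hB ▸ hFne 1) (fun h => hFne 2 (by
      rw [← hF, ← hA, ← hB]
      exact sub_eq_zero.2 h)) hD
    rw [← hA, ← hB]
    have h2 : (2 : ℝ) ^ Module.finrank ℤ (EAB (D * A) (D * B)).toAffine.Point ≤
        4 ^ (D.natAbs.primeFactors.card +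
          ((2 * A * B * (A - B)).natAbs.primeFactors.card + 2)) := by
      exact_mod_cast h1
    have h3 : (2 : ℝ) ^ Module.finrank ℤ (EAB (D * A) (D * B)).toAffine.Point /
        2 ^ ibz D (FM (c4 cls) a μ (fv α β t.1 t.2)) ≤
        (2 : ℝ) ^ Module.finrank ℤ (EAB (D * A) (D * B)).toAffine.Point :=
      div_le_self (by positivity) (one_le_pow₀ (by norm_num))
    refine (pow_le_pow_left₀ (by positivity) (h3.trans h2) k).trans ?_
    rw [pow_add, mul_pow, mul_comm]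
    apply mul_le_mul_of_nonneg_left _ (by positivity)
    rw [KK_real, ← pow_mul, ← pow_mul, mul_comm k]
    exact pow_le_pow_left₀ (by norm_num) (by norm_num) _
  · refine ⟨0, le_rfl, fun D _ => ?_⟩
    unfold Q0k
    rw [if_neg h, zero_mul]

theorem boxk (hAVG : S_AVG) (k : ℕ) (cls : J → Fin 3) (a : Fin 3 → ℤ)
    (μ : J → ℕ) (α β : J → ℤ) (ha : ∀ k, a k ≠ 0) (hμ : ∀ j, Odd (μ j))
    (hR : ∀ j l, j ≠ l → Res α β j l ≠ 0) (hodd : ∀ k, Odd (∑ l ∈ fc (c4 cls) k, μ l))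
    (hF : ∀ u v : ℤ, FM (c4 cls) a μ (fv α β u v) 0 - FM (c4 cls) a μ (fv α β u v) 1 =
      FM (c4 cls) a μ (fv α β u v) 2) :
    ∃ C : ℝ, 0 ≤ C ∧ ∀ D : ℤ, D ≠ 0 → ∀ X : ℕ, 1 ≤ X →
      ∑ t ∈ Box X, Q0k k cls a μ α β D t ≤
      C * ((KK k : ℝ) ^ D.natAbs.primeFactors.card * X ^ 2) := by
  classical
  -- the shift
  obtain ⟨q, hq⟩ : ∃ q : ℕ, ∀ j, α j + (q : ℤ) * β j ≠ 0 := by
    have hne : ∀ j, α j ≠ 0 ∨ β j ≠ 0 := by
      intro j
      have hex : ∃ l, l ≠ j := by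
        have h1 := hodd (if cls j = 0 then 1 else 0)
        have h2 : (fc (c4 cls) (if cls j = 0 then 1 else 0)).Nonempty := by
          rw [nonempty_iff_ne_empty]
          intro h
          rw [h, sum_empty] at h1
          exact absurd h1 (by decide)
        obtain ⟨l, hl⟩ := h2
        refine ⟨l, ?_⟩
        rintro rfl
        unfold fc c4 at hl
        rw [mem_filter] at hl
        have h3 := hl.2
        revert h3
        generalize cls l = c
        revert c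
        decide
      obtain ⟨l, hl⟩ := hex
      by_contra h
      push Not at h
      apply hR j l hl.symm
      unfold Res
      rw [h.1, h.2]
      ring
    refine ⟨∑ j, (α j).natAbs + 1, fun j h => ?_⟩
    have h2 := single_le_sum (f := fun j => (α j).natAbs) (fun _ _ => Nat.zero_le _) (mem_univ j)
    have h2' : (α j).natAbs ≤ ∑ j, (α j).natAbs := h2
    clear h2
    generalize ∑ j, (α j).natAbs = S at h h2'
    by_cases hb : β j = 0
    · rw [hb, mul_zero, add_zero] at h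
      rcases hne j with h3 | h3
      · exact h3 h
      · exact h3 hb
    · have h3 : α j = -(((S + 1 : ℕ) : ℤ) * β j) := by linarith
      have h4 : (α j).natAbs = (S + 1) * (β j).natAbs := by
        rw [h3, Int.natAbs_neg, Int.natAbs_mul, Int.natAbs_natCast]
      have h5 := Int.natAbs_pos.2 hb
      have h6 : (S + 1) * 1 ≤ (S + 1) * (β j).natAbs := Nat.mul_le_mul_left _ h5
      omega
  have hE : ∀ e ∈ sgs, ∃ C : ℝ, 0 ≤ C ∧ ∀ D : ℤ, D ≠ 0 → ∀ X : ℕ, 1 ≤ X →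
      ∑ t ∈ Icc 1 X ×ˢ Icc 1 X, Q0k k cls a μ α β D
        (e.1 * ((t.1 : ℕ) : ℤ), e.2 * ((t.2 : ℕ) : ℤ) + q * (e.1 * ((t.1 : ℕ) : ℤ))) ≤
      C * ((KK k : ℝ) ^ D.natAbs.primeFactors.card * X ^ 2) := by
    intro e he
    have he' := he
    rw [mem_sgs] at he'
    have he1 : e.1 ≠ 0 := by rcases he'.1 with h | h <;> rw [h] <;> norm_num
    have he2 : e.2 ≠ 0 := by rcases he'.2 with h | h <;> rw [h] <;> norm_num
    obtain ⟨C, hC0, hC⟩ := hAVG J k cls a μ (fun j => e.1 * (α j + q * β j))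
      (fun j => e.2 * β j) ha hμ (fun j => mul_ne_zero he1 (hq j)) (fun j l hjl => by
        have : Res (fun j => e.1 * (α j + q * β j)) (fun j => e.2 * β j) j l =
            e.1 * e.2 * Res α β j l := by
          unfold Res
          ring
        rw [this]
        exact mul_ne_zero (mul_ne_zero he1 he2) (hR j l hjl)) hodd (fun u v => by
        rw [← fv_lin]
        exact hF _ _)
    refine ⟨C, hC0, fun D hD X hX => le_trans ?_ (hC D hD X hX)⟩
    rw [sum_filter]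
    apply sum_le_sum
    intro t _
    unfold Q0k RA
    simp only
    rw [fv_lin]
    by_cases h : IsCoprime (e.1 * (t.1 : ℤ)) (e.2 * (t.2 : ℤ) + q * (e.1 * (t.1 : ℤ))) ∧
        ∀ j, fv (fun j => e.1 * (α j + q * β j)) (fun j => e.2 * β j) (t.1 : ℤ) (t.2 : ℤ) j ≠ 0
    · rw [if_pos h, if_pos ⟨cop_lin h.1, h.2⟩]
    · rw [if_neg h]
      split_ifs
      · positivity
      · exact le_rfl
  choose! Ce hCe0 hCe using hE
  obtain ⟨C1, hC10, hC1⟩ := Q0k_pt k cls μ α β ha hF (0, 1 + q * 0)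
  obtain ⟨C2, hC20, hC2⟩ := Q0k_pt k cls μ α β ha hF (0, -1 + q * 0)
  obtain ⟨C3, hC30, hC3⟩ := Q0k_pt k cls μ α β ha hF (1, 0 + q * 1)
  obtain ⟨C5, hC50, hC5⟩ := Q0k_pt k cls μ α β ha hF (-1, 0 + q * (-1))
  refine ⟨(∑ e ∈ sgs, Ce e) * (q + 1) ^ 2 + (C1 + C2 + C3 + C5), ?_, fun D hD X hX => ?_⟩
  · have : 0 ≤ ∑ e ∈ sgs, Ce e := sum_nonneg fun e he => hCe0 e he
    positivity
  set g : ℤ × ℤ → ℝ := fun t => Q0k k cls a μ α β D (t.1, t.2 + q * t.1) with hg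
  have hg0 : ∀ t, 0 ≤ g t := fun t => Q0k_nonneg _ _ _ _ _ _ _ _
  have hgc : ∀ t, g t ≠ 0 → IsCoprime t.1 t.2 := by
    intro t ht
    by_contra h
    apply ht
    rw [hg]
    unfold Q0k
    simp only
    rw [if_neg]
    rintro ⟨h1, _⟩
    apply h
    rwa [mul_comm (q : ℤ), IsCoprime.add_mul_left_right_iff] at h1
  have h1 : ∑ t ∈ Box X, Q0k k cls a μ α β D t = ∑ t ∈ Box X, g (t.1, t.2 - q * t.1) := by
    apply sum_congr rfl
    intro t _
    rw [hg]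
    simp only [sub_add_cancel]
  rw [h1]
  refine (box_shift g hg0 q X).trans ((box_le g hg0 hgc _).trans ?_)
  have hX1 : (1 : ℝ) ≤ X := by exact_mod_cast hX
  have hX2 : (1 : ℝ) ≤ (X : ℝ) ^ 2 := one_le_pow₀ hX1
  have hw0 : (0 : ℝ) ≤ (KK k : ℝ) ^ D.natAbs.primeFactors.card := by positivity
  have h2 : ∑ e ∈ sgs, ∑ t ∈ Icc 1 ((q + 1) * X) ×ˢ Icc 1 ((q + 1) * X),
      g (e.1 * ((t.1 : ℕ) : ℤ), e.2 * ((t.2 : ℕ) : ℤ)) ≤
      (∑ e ∈ sgs, Ce e) * (q + 1) ^ 2 * ((KK k : ℝ) ^ D.natAbs.primeFactors.card * X ^ 2) := by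
    rw [sum_mul, sum_mul]
    apply sum_le_sum
    intro e he
    have h3 := hCe e he D hD ((q + 1) * X) (Nat.mul_pos (Nat.succ_pos q) hX)
    refine h3.trans (le_of_eq ?_)
    push_cast
    ring
  have h3 : g (0, 1) ≤ C1 * (KK k : ℝ) ^ D.natAbs.primeFactors.card := hC1 D hD
  have h4 : g (0, -1) ≤ C2 * (KK k : ℝ) ^ D.natAbs.primeFactors.card := hC2 D hD
  have h5 : g (1, 0) ≤ C3 * (KK k : ℝ) ^ D.natAbs.primeFactors.card := hC3 D hD
  have h6 : g (-1, 0) ≤ C5 * (KK k : ℝ) ^ D.natAbs.primeFactors.card := hC5 D hD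
  have h7 : (C1 + C2 + C3 + C5) * (KK k : ℝ) ^ D.natAbs.primeFactors.card ≤
      (C1 + C2 + C3 + C5) * ((KK k : ℝ) ^ D.natAbs.primeFactors.card * X ^ 2) := by
    apply mul_le_mul_of_nonneg_left _ (by positivity)
    exact le_mul_of_one_le_right hw0 hX2
  calc _ ≤ (∑ e ∈ sgs, Ce e) * (q + 1) ^ 2 * ((KK k : ℝ) ^ D.natAbs.primeFactors.card * X ^ 2) +
        (C1 + C2 + C3 + C5) * (KK k : ℝ) ^ D.natAbs.primeFactors.card := by
        apply add_le_add h2
        linarith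
    _ ≤ _ := by
        rw [add_mul]
        linarith


/-! ### the multiples -/

lemma spl_le {x y b : ℤ} (hy : y ≠ 0) (h : x ∣ y) : spl x b ≤ spl y b := by
  unfold spl
  apply card_le_card
  intro p hp
  rw [mem_filter] at hp ⊢
  exact ⟨Nat.primeFactors_mono (Int.natAbs_dvd_natAbs.2 h) (Int.natAbs_ne_zero.2 hy) hp.1, hp.2⟩

lemma spl_le_om (x b : ℤ) : spl x b ≤ om x := by
  unfold spl om
  exact card_filter_le _ _

lemma om_mul {g : ℕ} (hg : g ≠ 0) (d : ℕ) {x : ℤ} (hx : x ≠ 0) :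
    om ((g : ℤ) ^ d * x) ≤ om x + g.primeFactors.card := by
  unfold om
  refine le_trans (card_le_card ?_) (card_union_le _ _)
  rw [Int.natAbs_mul, Int.natAbs_pow, Int.natAbs_natCast]
  intro p hp
  have hpp := Nat.prime_of_mem_primeFactors hp
  rw [mem_union, Nat.mem_primeFactors, Nat.mem_primeFactors]
  rcases (hpp.dvd_mul.1 (Nat.dvd_of_mem_primeFactors hp)) with h | h
  · exact Or.inr ⟨hpp, hpp.dvd_of_dvd_pow h, hg⟩
  · exact Or.inl ⟨hpp, h, Int.natAbs_ne_zero.2 hx⟩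

lemma sp3_0 (D : ℤ) (F : Fin 3 → ℤ) : sp3 D F 0 = spl (F 0) (-(D * F 1)) := rfl

lemma sp3_1 (D : ℤ) (F : Fin 3 → ℤ) : sp3 D F 1 = spl (F 1) (-(D * F 0)) := rfl

lemma sp3_2 (D : ℤ) (F : Fin 3 → ℤ) : sp3 D F 2 = spl (F 2) (D * F 0) := rfl

lemma ibz_mul {g : ℕ} (hg : g ≠ 0) (d : ℕ) (D : ℤ) {F F' : Fin 3 → ℤ}
    (hF : ∀ k, F k = (g : ℤ) ^ d * F' k) (hF' : ∀ k, F' k ≠ 0) :
    ibz (D * (g : ℤ) ^ d) F' ≤ ibz D F + 2 * g.primeFactors.card := by
  have hg0 : (g : ℤ) ≠ 0 := by exact_mod_cast hg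
  have hne : ∀ k, F k ≠ 0 := fun k => by
    rw [hF]
    exact mul_ne_zero (pow_ne_zero _ hg0) (hF' k)
  have hdv : ∀ k, F' k ∣ F k := fun k => by
    rw [hF]
    exact dvd_mul_left _ _
  have h0 : sp3 (D * (g : ℤ) ^ d) F' 0 ≤ sp3 D F 0 := by
    rw [sp3_0, sp3_0, hF 1, ← mul_assoc D]
    exact spl_le (hne 0) (hdv 0)
  have h1 : sp3 (D * (g : ℤ) ^ d) F' 1 ≤ sp3 D F 1 := by
    rw [sp3_1, sp3_1, hF 0, ← mul_assoc D]
    exact spl_le (hne 1) (hdv 1)
  have h2 : sp3 (D * (g : ℤ) ^ d) F' 2 ≤ sp3 D F 2 := by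
    rw [sp3_2, sp3_2, hF 0, ← mul_assoc D]
    exact spl_le (hne 2) (hdv 2)
  have k0 : sp3 (D * (g : ℤ) ^ d) F' 0 ≤ om (F' 0) := spl_le_om _ _
  have k1 : sp3 (D * (g : ℤ) ^ d) F' 1 ≤ om (F' 1) := spl_le_om _ _
  have k2 : sp3 (D * (g : ℤ) ^ d) F' 2 ≤ om (F' 2) := spl_le_om _ _
  have l : ∀ k, om (F k) ≤ om (F' k) + g.primeFactors.card := fun k => by
    rw [hF]
    exact om_mul hg d (hF' k)
  have l0 := l 0
  have l1 := l 1
  have l2 := l 2
  unfold ibz exc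
  simp only
  generalize sp3 (D * (g : ℤ) ^ d) F' 0 = x0 at *
  generalize sp3 (D * (g : ℤ) ^ d) F' 1 = x1 at *
  generalize sp3 (D * (g : ℤ) ^ d) F' 2 = x2 at *
  generalize sp3 D F 0 = y0 at *
  generalize sp3 D F 1 = y1 at *
  generalize sp3 D F 2 = y2 at *
  generalize om (F' 0) = a0 at *
  generalize om (F' 1) = a1 at *
  generalize om (F' 2) = a2 at *
  generalize om (F 0) = b0 at *
  generalize om (F 1) = b1 at *
  generalize om (F 2) = b2 at *
  generalize g.primeFactors.card = w at *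
  omega

/-- the summand at a multiple -/
lemma RA_mul (k : ℕ) (cls : J → Fin 3) {a : Fin 3 → ℤ} {μ : J → ℕ} {α β : J → ℤ} {d : ℕ}
    (ha : ∀ k, a k ≠ 0) (hdeg : ∀ k, ∑ l ∈ fc (c4 cls) k, μ l = d) {g : ℕ} (hg : g ≠ 0) (D : ℤ)
    {u v : ℤ} (hne : ∀ j, fv α β u v j ≠ 0) :
    RA k cls a μ α β D ((g : ℤ) * u, (g : ℤ) * v) ≤
      ((4 : ℝ) ^ k) ^ g.primeFactors.card * RA k cls a μ α β (D * (g : ℤ) ^ d) (u, v) := by
  have hFne : ∀ k, FM (c4 cls) a μ (fv α β u v) k ≠ 0 := fun k =>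
    mul_ne_zero (ha k) (prod_ne_zero_iff.2 fun l _ => pow_ne_zero _ (hne l))
  have h1 := ibz_mul hg d D (F := FM (c4 cls) a μ (fv α β ((g : ℤ) * u) ((g : ℤ) * v)))
    (F' := FM (c4 cls) a μ (fv α β u v)) (fun k => FM_scale a μ α β hdeg _ _ _ k) hFne
  unfold RA
  simp only
  rw [FM_scale a μ α β hdeg _ _ _ 0, FM_scale a μ α β hdeg _ _ _ 1, ← mul_assoc D, ← mul_assoc D]
  obtain ⟨P, hP⟩ : ∃ P : ℝ, P = (2 : ℝ) ^ Module.finrank ℤ
    (EAB (D * (g : ℤ) ^ d * FM (c4 cls) a μ (fv α β u v) 0)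
      (D * (g : ℤ) ^ d * FM (c4 cls) a μ (fv α β u v) 1)).toAffine.Point := ⟨_, rfl⟩
  have hP0 : 0 ≤ P := by rw [hP]; positivity
  rw [← hP, ← pow_mul, mul_comm k, pow_mul, ← mul_pow]
  apply pow_le_pow_left₀ (by positivity)
  rw [← mul_div_assoc, div_le_div_iff₀ (by positivity) (by positivity)]
  have h2 : (2 : ℝ) ^ ibz (D * (g : ℤ) ^ d) (FM (c4 cls) a μ (fv α β u v)) ≤
      2 ^ ibz D (FM (c4 cls) a μ (fv α β ((g : ℤ) * u) ((g : ℤ) * v))) *
        4 ^ g.primeFactors.card := by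
    have h3 : (4 : ℝ) ^ g.primeFactors.card = 2 ^ (2 * g.primeFactors.card) := by
      rw [pow_mul]
      norm_num
    rw [h3, ← pow_add]
    exact pow_le_pow_right₀ (by norm_num) h1
  calc P * 2 ^ ibz (D * (g : ℤ) ^ d) (FM (c4 cls) a μ (fv α β u v))
      ≤ P * (2 ^ ibz D (FM (c4 cls) a μ (fv α β ((g : ℤ) * u) ((g : ℤ) * v))) *
        4 ^ g.primeFactors.card) := mul_le_mul_of_nonneg_left h2 hP0
    _ = _ := by ring

theorem allk (hAVG : S_AVG) (k : ℕ) (cls : J → Fin 3) (a : Fin 3 → ℤ)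
    (μ : J → ℕ) (α β : J → ℤ) (ha : ∀ k, a k ≠ 0) (hμ : ∀ j, Odd (μ j))
    (hR : ∀ j l, j ≠ l → Res α β j l ≠ 0) (d : ℕ) (hd : Odd d)
    (hdeg : ∀ k, ∑ l ∈ fc (c4 cls) k, μ l = d)
    (hF : ∀ u v : ℤ, FM (c4 cls) a μ (fv α β u v) 0 - FM (c4 cls) a μ (fv α β u v) 1 =
      FM (c4 cls) a μ (fv α β u v) 2) :
    ∃ C : ℝ, 0 ≤ C ∧ ∀ D : ℤ, D ≠ 0 → ∀ X : ℕ, 1 ≤ X →
      ∑ t ∈ (Box X).filter (fun t => ∀ j, fv α β t.1 t.2 j ≠ 0), RA k cls a μ α β D t ≤
      C * ((KK k : ℝ) ^ D.natAbs.primeFactors.card * X ^ 2) := by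
  classical
  obtain ⟨C, hC0, hC⟩ := boxk hAVG k cls a μ α β ha hμ hR (fun k => by rw [hdeg]; exact hd) hF
  obtain ⟨S, hS0, hS⟩ := sum_omega (KK k * 4 ^ k) (by
    have : 0 < KK k * 4 ^ k := by unfold KK; positivity
    exact this)
  have hJ : Nonempty J := by
    by_contra h
    rw [not_nonempty_iff] at h
    have h1 := hdeg 0
    rw [sum_eq_zero (fun l _ => (h.elim l))] at h1
    rw [← h1] at hd
    exact absurd hd (by decide)
  refine ⟨C * S, by positivity, fun D hD X hX => ?_⟩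
  set G := (Box X).filter (fun t => ∀ j, fv α β t.1 t.2 j ≠ 0) with hG
  have hgcd : ∀ t ∈ G, Int.gcd t.1 t.2 ∈ Icc 1 X := by
    intro t ht
    rw [hG, mem_filter, mem_Box] at ht
    have hne : t.1 ≠ 0 ∨ t.2 ≠ 0 := by
      by_contra h
      push Not at h
      obtain ⟨j⟩ := hJ
      apply ht.2 j
      unfold fv
      rw [h.1, h.2]
      ring
    rw [mem_Icc]
    constructor
    · apply Nat.succ_le_of_lt
      exact Int.gcd_pos_iff.2 hne
    · rcases hne with h | h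
      · exact (Nat.le_of_dvd (Int.natAbs_pos.2 h)
          (Int.natAbs_dvd_natAbs.2 (Int.gcd_dvd_left _ _))).trans ht.1.1
      · exact (Nat.le_of_dvd (Int.natAbs_pos.2 h)
          (Int.natAbs_dvd_natAbs.2 (Int.gcd_dvd_right _ _))).trans ht.1.2
  rw [← sum_fiberwise_of_maps_to hgcd]
  have hfib : ∀ g ∈ Icc 1 X, ∑ t ∈ G.filter (fun t => Int.gcd t.1 t.2 = g),
      RA k cls a μ α β D t ≤
      (C * ((KK k : ℝ) ^ D.natAbs.primeFactors.card * X ^ 2)) *
        (((KK k * 4 ^ k : ℕ) : ℝ) ^ g.primeFactors.card / (g : ℝ) ^ 2) := by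
    intro g hg
    rw [mem_Icc] at hg
    have hg0 : (g : ℤ) ≠ 0 := by exact_mod_cast (by omega : g ≠ 0)
    have hgr : (0 : ℝ) < g := by exact_mod_cast hg.1
    set φ : ℤ × ℤ → ℤ × ℤ := fun t => (t.1 / g, t.2 / g) with hφ
    have hback : ∀ t ∈ G.filter (fun t => Int.gcd t.1 t.2 = g),
        t = ((g : ℤ) * (φ t).1, (g : ℤ) * (φ t).2) := by
      intro t ht
      rw [mem_filter] at ht
      have h1 : (g : ℤ) ∣ t.1 := by
        rw [← ht.2]
        exact Int.gcd_dvd_left _ _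
      have h2 : (g : ℤ) ∣ t.2 := by
        rw [← ht.2]
        exact Int.gcd_dvd_right _ _
      rw [hφ]
      simp only
      rw [Int.mul_ediv_cancel' h1, Int.mul_ediv_cancel' h2]
    have hinj : Set.InjOn φ (G.filter (fun t => Int.gcd t.1 t.2 = g) : Set (ℤ × ℤ)) := by
      intro t ht t' ht' h
      rw [hback t ht, hback t' ht', h]
    have hDg : D * (g : ℤ) ^ d ≠ 0 := mul_ne_zero hD (pow_ne_zero _ hg0)
    have hval : ∀ t ∈ G.filter (fun t => Int.gcd t.1 t.2 = g), RA k cls a μ α β D t ≤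
        ((4 : ℝ) ^ k) ^ g.primeFactors.card * Q0k k cls a μ α β (D * (g : ℤ) ^ d) (φ t) ∧ φ t ∈ Box (X / g) := by
      intro t ht
      have hb := hback t ht
      rw [mem_filter, hG, mem_filter, mem_Box] at ht
      obtain ⟨⟨⟨hb1, hb2⟩, hf⟩, hgc⟩ := ht
      have hcop : IsCoprime (φ t).1 (φ t).2 := by
        rw [Int.isCoprime_iff_gcd_eq_one]
        have h3 : Int.gcd t.1 t.2 = g * Int.gcd (φ t).1 (φ t).2 := by
          conv_lhs => rw [hb]
          simp only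
          rw [Int.gcd_mul_left, Int.natAbs_natCast]
        rw [hgc] at h3
        have h4 : g * 1 = g * Int.gcd (φ t).1 (φ t).2 := by rw [mul_one]; exact h3
        exact (Nat.eq_of_mul_eq_mul_left hg.1 h4).symm
      constructor
      · have e1 : fv α β t.1 t.2 = fv α β ((g : ℤ) * (φ t).1) ((g : ℤ) * (φ t).2) := by
          conv_lhs => rw [hb]
        have hne' : ∀ j, fv α β (φ t).1 (φ t).2 j ≠ 0 := fun j hj => hf j (by
          rw [e1, fv_scale, hj, mul_zero])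
        unfold Q0k
        rw [if_pos ⟨hcop, hne'⟩]
        conv_lhs => rw [hb]
        exact RA_mul k cls ha hdeg (by omega) D hne'
      · rw [mem_Box, Nat.le_div_iff_mul_le hg.1, Nat.le_div_iff_mul_le hg.1]
        have h5 : t.1.natAbs = (φ t).1.natAbs * g := by
          conv_lhs => rw [hb]
          simp only
          rw [Int.natAbs_mul, Int.natAbs_natCast, mul_comm]
        have h6 : t.2.natAbs = (φ t).2.natAbs * g := by
          conv_lhs => rw [hb]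
          simp only
          rw [Int.natAbs_mul, Int.natAbs_natCast, mul_comm]
        rw [← h5, ← h6]
        exact ⟨hb1, hb2⟩
    have h1 : ∑ t ∈ G.filter (fun t => Int.gcd t.1 t.2 = g), RA k cls a μ α β D t ≤
        ((4 : ℝ) ^ k) ^ g.primeFactors.card *
          ∑ y ∈ Box (X / g), Q0k k cls a μ α β (D * (g : ℤ) ^ d) y := by
      refine (sum_le_sum fun t ht => (hval t ht).1).trans ?_
      rw [← mul_sum]
      apply mul_le_mul_of_nonneg_left _ (by positivity)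
      rw [← sum_image (f := fun y => Q0k k cls a μ α β (D * (g : ℤ) ^ d) y) hinj]
      apply sum_le_sum_of_subset_of_nonneg
      · intro y hy
        obtain ⟨t, ht, rfl⟩ := mem_image.1 hy
        exact (hval t ht).2
      · intro y _ _
        exact Q0k_nonneg _ _ _ _ _ _ _ _
    have hXg : 1 ≤ X / g := (Nat.le_div_iff_mul_le hg.1).2 (by rw [one_mul]; exact hg.2)
    refine h1.trans ((mul_le_mul_of_nonneg_left (hC (D * (g : ℤ) ^ d) hDg (X / g) hXg)
      (by positivity)).trans ?_)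
    have h2 : ((X / g : ℕ) : ℝ) ≤ (X : ℝ) / g := Nat.cast_div_le
    have h3 : (D * (g : ℤ) ^ d).natAbs.primeFactors.card ≤
        D.natAbs.primeFactors.card + g.primeFactors.card := by
      refine le_trans (card_le_card ?_) (card_union_le _ _)
      rw [Int.natAbs_mul, Int.natAbs_pow, Int.natAbs_natCast]
      intro p hp
      have hpp := Nat.prime_of_mem_primeFactors hp
      rw [mem_union, Nat.mem_primeFactors, Nat.mem_primeFactors]
      rcases (hpp.dvd_mul.1 (Nat.dvd_of_mem_primeFactors hp)) with h | h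
      · exact Or.inl ⟨hpp, h, Int.natAbs_ne_zero.2 hD⟩
      · exact Or.inr ⟨hpp, hpp.dvd_of_dvd_pow h, by omega⟩
    have hKK : (1 : ℝ) ≤ (KK k : ℝ) := by
      rw [KK_real]
      exact one_le_pow₀ (by norm_num)
    have h4 : (KK k : ℝ) ^ (D * (g : ℤ) ^ d).natAbs.primeFactors.card ≤
        (KK k : ℝ) ^ D.natAbs.primeFactors.card * (KK k : ℝ) ^ g.primeFactors.card := by
      rw [← pow_add]
      exact pow_le_pow_right₀ hKK h3
    have h5 : ((X / g : ℕ) : ℝ) ^ 2 ≤ ((X : ℝ) / g) ^ 2 :=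
      pow_le_pow_left₀ (Nat.cast_nonneg _) h2 2
    calc ((4 : ℝ) ^ k) ^ g.primeFactors.card *
        (C * ((KK k : ℝ) ^ (D * (g : ℤ) ^ d).natAbs.primeFactors.card * ((X / g : ℕ) : ℝ) ^ 2))
        ≤ ((4 : ℝ) ^ k) ^ g.primeFactors.card *
          (C * (((KK k : ℝ) ^ D.natAbs.primeFactors.card * (KK k : ℝ) ^ g.primeFactors.card) *
            ((X : ℝ) / g) ^ 2)) := by
          apply mul_le_mul_of_nonneg_left _ (by positivity)
          apply mul_le_mul_of_nonneg_left _ hC0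
          exact mul_le_mul h4 h5 (by positivity) (by positivity)
      _ = _ := by
          push_cast
          rw [mul_pow]
          field_simp
  refine (sum_le_sum hfib).trans ?_
  rw [← mul_sum]
  have h1 : (0 : ℝ) ≤ C * ((KK k : ℝ) ^ D.natAbs.primeFactors.card * X ^ 2) := by positivity
  refine (mul_le_mul_of_nonneg_left (hS X) h1).trans (le_of_eq ?_)
  ring


/-- **S_ALL** -/
theorem s_ALL : S_ALL := by
  intro hAVG J _ _ k cls a μ α β ha hμ hR d hd hdeg hF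
  exact allk hAVG k cls a μ α β ha hμ hR d hd hdeg hF

end Pool.Agent.L7h60.AM
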