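import Pool.Agent.L7h72.AM.Stm3
import Pool.Agent.W762.RK2.EXP4a

/-!
# Project AM (helper72; MP_157626_nt): `S_EX0`, comparison of the two exponents
-/

set_option autoImplicit false
set_option linter.all false

namespace Pool.Agent.L7h60.AM

open Finset Pool.Agent.W262.RK Pool.Agent.W307.RT Pool.Agent.L7h19.RH Pool.Agent.W762.RK2
open Pool.Agent.L7h19.FT (N0 mc Ms Mo Mt ex dl)
open Pool.Agent.L7h72.AM2

variable {J : Type} [Fintype J] [DecidableEq J] {z y : ℕ} {s : J → ℕ}

lemma tup_ne (hs : s ∈ Tup J z y) (j : J) : s j ≠ 0 := by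
  have h := (Pool.Agent.W108.RK.mem_Tup.1 hs).1 j
  intro h0
  rw [h0] at h
  have h1 : PP z y = 0 := zero_dvd_iff.1 h
  unfold PP PS at h1
  rw [Finset.prod_eq_zero_iff] at h1
  obtain ⟨p, hp, hp0⟩ := h1
  rw [hp0] at hp
  exact Nat.not_prime_zero (mem_filter.1 hp).2

lemma pf_prod (hs : s ∈ Tup J z y) (S : Finset J) :
    (∏ j ∈ S, s j).primeFactors = S.biUnion (fun j => (s j).primeFactors) := by
  ext p
  rw [Finset.mem_biUnion, Nat.mem_primeFactors]
  constructor
  · rintro ⟨hp, hd, -⟩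
    obtain ⟨j, hj, hj2⟩ := (hp.prime.dvd_finset_prod_iff _).1 hd
    exact ⟨j, hj, Nat.mem_primeFactors.2 ⟨hp, hj2, tup_ne hs j⟩⟩
  · rintro ⟨j, hj, hj2⟩
    have h := Nat.mem_primeFactors.1 hj2
    exact ⟨h.1, h.2.1.trans (Finset.dvd_prod_of_mem _ hj),
      Finset.prod_ne_zero_iff.2 fun i _ => tup_ne hs i⟩

lemma disj (hs : s ∈ Tup J z y) (i j : J) (h : i ≠ j) :
    Disjoint (s i).primeFactors (s j).primeFactors :=
  ((Pool.Agent.W108.RK.mem_Tup.1 hs).2 i j h).disjoint_primeFactors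

lemma card_prod (hs : s ∈ Tup J z y) (S : Finset J) :
    (∏ j ∈ S, s j).primeFactors.card = ∑ j ∈ S, (s j).primeFactors.card := by
  rw [pf_prod hs S, Finset.card_biUnion fun i _ j _ h => disj hs i j h]

lemma card_filter_prod (hs : s ∈ Tup J z y) (S : Finset J) (E : Finset ℕ) :
    ((∏ j ∈ S, s j).primeFactors.filter (fun p => p ∉ E)).card =
      ∑ j ∈ S, ((s j).primeFactors.filter (fun p => p ∉ E)).card := by
  rw [pf_prod hs S, Finset.filter_biUnion, Finset.card_biUnion fun i _ j _ h =>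
    (disj hs i j h).mono (filter_subset _ _) (filter_subset _ _)]

/-- **S_EX0** -/
theorem s_EX0 : S_EX0 := by
  classical
  intro J _ _ cls z y s E hs
  have hMs : ∀ c, (Ms (mc cls s) E c).primeFactors.card = nus cls s E c := by
    intro c
    unfold Ms
    rw [Nat.primeFactors_prod fun p hp => Nat.prime_of_mem_primeFactors (mem_filter.1 hp).1]
    exact card_filter_prod hs _ E
  have hMo : ∀ c, (Mo (mc cls s) c).primeFactors.card =
      ∑ e ∈ univ.filter (fun e : Fin 3 => e ≠ c), nu cls s e := by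
    intro c
    have h1 : Mo (mc cls s) c = ∏ j ∈ univ.filter (fun j => cls j ∈ univ.filter (fun e : Fin 3 => e ≠ c)), s j :=
      Finset.prod_fiberwise_eq_prod_filter univ (univ.filter (fun e : Fin 3 => e ≠ c)) cls s
    rw [h1, card_prod hs]
    exact (Finset.sum_fiberwise_eq_sum_filter univ (univ.filter (fun e : Fin 3 => e ≠ c)) cls
      fun j => (s j).primeFactors.card).symm
  unfold ex
  refine Finset.sup_le fun c _ => ?_
  unfold dl ibE exc
  rw [hMs, hMo]
  have e0 : (univ.filter (fun e : Fin 3 => e ≠ 0)) = {1, 2} := by decide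
  have e1 : (univ.filter (fun e : Fin 3 => e ≠ 1)) = {0, 2} := by decide
  have e2 : (univ.filter (fun e : Fin 3 => e ≠ 2)) = {0, 1} := by decide
  have f0 : ∑ e ∈ ({1, 2} : Finset (Fin 3)), nu cls s e = nu cls s 1 + nu cls s 2 :=
    Finset.sum_pair (by decide)
  have f1 : ∑ e ∈ ({0, 2} : Finset (Fin 3)), nu cls s e = nu cls s 0 + nu cls s 2 :=
    Finset.sum_pair (by decide)
  have f2 : ∑ e ∈ ({0, 1} : Finset (Fin 3)), nu cls s e = nu cls s 0 + nu cls s 1 :=
    Finset.sum_pair (by decide)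
  have hc : c = 0 ∨ c = 1 ∨ c = 2 := by
    revert c
    decide
  rcases hc with rfl | rfl | rfl
  · rw [e0, f0]
    omega
  · rw [e1, f1]
    omega
  · rw [e2, f2]
    omega

end Pool.Agent.L7h60.AM
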